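import Mathlib
import Pool.Agent.MP_92191b_al.Main

namespace Pool.Agent.Results.MP_92191b_al.LargeAlphabet

open Pool.Agent.MP_92191b_al

/-- For every `m ≥ 2` and every `k ≥ (m + 1) ^ 2`, the wreath product `S_k wr S_m` in its power
action synchronizes every non-uniform map. -/
theorem result :
    ∀ k m : ℕ, 2 ≤ m → (m + 1) ^ 2 ≤ k →
    ∀ f : (Fin m → Fin k) → (Fin m → Fin k),
      (∃ a b : Fin m → Fin k,
        (Finset.univ.filter (fun x => f x = f a)).card ≠
          (Finset.univ.filter (fun x => f x = f b)).card) →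
      ∃ c ∈ Submonoid.closure
          ({g : Function.End (Fin m → Fin k) |
              ∃ (σ : Fin m → Equiv.Perm (Fin k)) (π : Equiv.Perm (Fin m)),
                g = fun x i => σ i (x (π i))} ∪ {(f : Function.End (Fin m → Fin k))}),
        ∃ y : Fin m → Fin k, ∀ x, c x = y := by
  rintro k m hm hk f ⟨a, b, hab⟩
  have : Nontrivial (Fin k) := Fin.nontrivial_iff_two_le.2 (by nlinarith)
  by_contra hc
  refine hab (sync (by rw [Fintype.card_fin]; omega) ?_ _
    (fun σ π => Submonoid.subset_closure (Or.inl ⟨σ, π, rfl⟩))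
    (Submonoid.subset_closure (Or.inr rfl)) (fun c h h' => hc ⟨c, h, h'⟩) a b)
  rwa [Fintype.card_fin, Fintype.card_fin]

end Pool.Agent.Results.MP_92191b_al.LargeAlphabet
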